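import Pool.Agent.W896.FD.PM

/-!
# Randomised circuits for perfect matchings have superlinear formal degree

A Boolean circuit with AND gates of fan-in two, OR gates of any fan-in and negations at the inputs
accepts if and only if it has a proof tree all of whose leaves are true literals; the formal degree
in an input bit is the largest number of leaves with this bit. Circuits of polynomial size and
polynomial formal degree are (non-uniform) LOGCFL, a subclass of NC²; every problem in NC has
circuits of polynomial size and of formal degree `2 ^ (polylog n)`. The circuits of degree one in
every bit are the decomposable ones, DNNFs, and a nondeterministic syntactic read-`k` branching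
program is a circuit of degree at most `k` in every bit.

Let `n` be even and let a finite family of circuits (with negations) accept no graph on `n` vertices
without a perfect matching, and let it accept each graph with a perfect matching with probability at
least `2 ^ (- n / 2 ^ (60 (k + 1)))` (over a random circuit of the family). If the formal degrees of
each circuit sum up to at most `k n ^ 2` then some circuit of the family has size at least
`2 ^ (n / 2 ^ (60 (k + 1)) - 1)`. So randomised circuits of polynomial size (even of size
`2 ^ (n ^ (1 - ε))`) need total formal degree `Ω (n ^ 2 log n)`, that is, `Ω (log n)` for an average
bit. The size is right for constant `k`: dynamic programming over the subsets of the vertices gives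
a circuit of size `2 ^ (O n)` with formal degree one in each bit.

Proof. The graphs are disjoint unions of paths with six vertices. In each path there are two
pairs of vertices such that the graph remains (up to isomorphism) the same if the second pair is
joined instead of the first. If the states of the pairs do not fit there are two leaves with a
common neighbour in some component, so there is no perfect matching. Hence a rectangle for a
partition of the bits which separates the pairs of a path contains only few of these graphs. The
vertices are permuted randomly; for all but an exponentially small fraction of the permutations,
each of the `O (k ^ 2)` pieces of a proof tree (which depend on few bits, and every bit occurs in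
`O (k)` of them) separates the pairs in linearly many paths after a random colouring
(`Pool.Agent.W896.FD.moment`, `Pool.Agent.W896.FD.count`).
-/

set_option autoImplicit false

namespace Pool.Agent.Results.MP_0087d5_lc.FormalDegree

open Pool.Agent.W896.RK Pool.Agent.W896.FD

/-- Let `n` be even and let `U r` be a finite nonempty family of circuits with the bits of a graph
on `n` vertices as inputs such that no circuit of the family accepts a graph without a perfect
matching, and such that every graph with a perfect matching is accepted by at least a
`2 ^ (- ⌊n / 2 ^ (60 (k + 1))⌋)` fraction of the circuits. If in every circuit of the family the
sum of the formal degrees in the input bits is at most `k n ^ 2` then, for some circuit of the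
family, `n ≤ 2 ^ (60 (k + 1)) (⌊log₂ s⌋ + 1)`, where `s` is its number of gates. -/
theorem result (k n : ℕ) (hn : Even n) (R : Type) [Fintype R] [Nonempty R]
    (U : R → Circ (Sym2 (Fin n)))
    (hU : ∀ r (G : SimpleGraph (Fin n)), (U r).Val (bits G) (U r).out →
      ∃ M : G.Subgraph, M.IsPerfectMatching)
    (hc : ∀ G : SimpleGraph (Fin n), (∃ M : G.Subgraph, M.IsPerfectMatching) →
      Nat.card R ≤ 2 ^ (n / 2 ^ (60 * (k + 1))) *
        Nat.card {r // (U r).Val (bits G) (U r).out})
    (hd : ∀ r, ∃ d : (U r).G → Sym2 (Fin n) → ℕ, IsDeg (U r) id d ∧
      ∑ e, d (U r).out e ≤ k * n ^ 2) :
    ∃ r, n ≤ 2 ^ (60 * (k + 1)) * (Nat.log 2 (Fintype.card (U r).G) + 1) :=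
  pm_final k n hn R U hU hc hd

end Pool.Agent.Results.MP_0087d5_lc.FormalDegree
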