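import Pool.Agent.W896.HB.PMStack

/-!
# Perfect matchings on machines with a stack: a trade-off between head movement and memory

The model is a non-uniform nondeterministic program with `k` two-way heads on the adjacency matrix,
`s` nodes (a memory of `log s` bits) and a stack (pushdown store) of unlimited height; the number
of steps is unlimited too. Machines with logarithmic space and a stack which run for polynomial time
are the class LOGCFL, which contains nondeterministic logarithmic space and lies in NC²; with
unlimited time they decide exactly the languages in P. The theorem says that the way `T` of the
heads on the adjacency matrix, which is written row by row, satisfies `T * log s ≥ c n ^ 3`, both for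
the graphs with a perfect matching and for those without one, although the machines are
nondeterministic (and even randomised, with a success probability which is exponentially small).
So a machine with logarithmic space and a stack which decides the perfect matching problem must move
its heads over `c n ^ 3 / log n` cells, while the matrix has `n ^ 2` cells.

Proof. The number on the forehead method with the generalised inner product (Babai, Nisan and
Szegedy), as in our result on reachability (`MP_e46137_lc`, `HeadTravel`). By Barrington's
commutators the conjunction of `2 k + 1` bits becomes a word over the symmetric group of degree five
whose value is an involution or trivial; the product of these words for all columns depends on the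
parity of the columns of ones only. In the open braid with five strands which is made from these
permutations the source is joined to the beginning of the strand `0` and the target to the end at
the place `0`; the other vertices form a clique. If the product is trivial then the strand `0`
together with the two ends is a path with an even number of vertices, and there is a perfect
matching; if it is the involution `(0 1) (2 3)` then the source and the strand `0` have an odd number
of vertices and no edge leads out of them.
-/

set_option autoImplicit false

namespace Pool.Agent.Results.MP_0087d5_lc.StackTradeoff

open Pool.Agent.W896.HP Pool.Agent.W896.HB

/-- For every number `k` of heads there is a constant `D` such that for all even `n` and all `T`, for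
`Q` the graphs with `n` vertices which have a perfect matching, or those which have none, and for
all finite families `U r` of nondeterministic programs with `k` heads and a stack, whose input is
the adjacency matrix: if no `U r` accepts a graph outside `Q`, and every graph in `Q` is accepted by
at least a `2 ^ (- ⌊n / D⌋)` fraction of the `U r` in a computation in which the total way of the
heads is at most `T`, then some `U r`, with `s` nodes, satisfies
`n ^ 3 ≤ D (T + n ^ 2) (⌊log₂ s⌋ + 1)`. -/
theorem result (k : ℕ) : ∃ D : ℕ, 0 < D ∧ ∀ (n T : ℕ), Even n →
    ∀ (Q : SimpleGraph (Fin n) → Prop),
    ((Q = fun G => ∃ M : G.Subgraph, M.IsPerfectMatching) ∨
      (Q = fun G => ¬ ∃ M : G.Subgraph, M.IsPerfectMatching)) →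
    ∀ (R : Type) [Fintype R] [Nonempty R] (U : R → Prog (Fin k) (Fin n × Fin n)),
      (∀ r G l, (U r).Acc (mat G) l → Q G) →
      (∀ G, Q G → Nat.card R ≤ 2 ^ (n / D) *
        Nat.card {r // ∃ l, (U r).Acc (mat G) l ∧ travel cellAt l ≤ T}) →
      ∃ r, n ^ 3 ≤ D * ((T + n ^ 2) * (Nat.log 2 (Fintype.card (U r).State) + 1)) :=
  pm_stack k

end Pool.Agent.Results.MP_0087d5_lc.StackTradeoff
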